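import Pool.Agent.H923R2.FP.Defs

/-!
Characters from sequences of projections of small total trace.
-/

set_option autoImplicit false
set_option linter.unusedSectionVars false

open scoped ComplexConjugate Topology
open Filter Finset

noncomputable section

namespace Pool.Agent.R293.FC

open Pool.Agent.H923R2.FP

section one

variable {A : Type} [CStarAlgebra A]

/-- a sum of projections of total trace `< 1` is not invertible -/
theorem not_unit {τ : A →ₗ[ℂ] ℂ} (hτ : FTS τ) (p : ℕ → A) (hp : ∀ k, p k * p k = p k)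
    (hs : ∀ k, star (p k) = p k) (n : ℕ) (hn : ∑ k ∈ range n, (τ (p k)).re < 1) :
    ¬ IsUnit (∑ k ∈ range n, p k) := by
  rintro ⟨u, hu⟩
  set h : A := ∑ k ∈ range n, p k with hh
  obtain ⟨g, hg⟩ : ∃ g : A, g = ↑u⁻¹ := ⟨_, rfl⟩
  have h1 : h * g = 1 := by rw [← hu, hg]; exact u.mul_inv
  have h2 : g * h = 1 := by rw [← hu, hg]; exact u.inv_mul
  have hhs : star h = h := by rw [hh, star_sum]; exact sum_congr rfl fun k _ => hs k
  have hgs : star g = g := by
    have h3 : star g * h = 1 := by
      have := congrArg star h1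
      rwa [star_mul, star_one, hhs] at this
    calc star g = star g * (h * g) := by rw [h1, mul_one]
      _ = g := by rw [← mul_assoc, h3, one_mul]
  let D : ℕ → ℕ → ℂ := fun j k => τ (p k * g * p j * g)
  have hD : ∀ j k, 0 ≤ (D j k).re := by
    intro j k
    have e := hτ.nonneg (p j * g * p k)
    have e1 : star (p j * g * p k) * (p j * g * p k) = (p k * g * p j * g) * p k := by
      rw [star_mul, star_mul, hs, hs, hgs]
      calc p k * (g * p j) * (p j * g * p k) = p k * g * (p j * p j) * g * p k := by noncomm_ring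
        _ = _ := by rw [hp]
    have e2 : τ ((p k * g * p j * g) * p k) = D j k := by
      rw [hτ.comm]
      show τ (p k * (p k * g * p j * g)) = τ (p k * g * p j * g)
      congr 1
      calc p k * (p k * g * p j * g) = (p k * p k) * g * p j * g := by noncomm_ring
        _ = _ := by rw [hp]
    rwa [e1, e2] at e
  have hK : ∀ k, 0 ≤ (τ (p k)).re - 2 * (τ (p k * g)).re + (D k k).re := by
    intro k
    have e := hτ.nonneg (p k - p k * g * p k)
    have e1 : star (p k - p k * g * p k) * (p k - p k * g * p k) =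
        p k - (p k * g) * p k - (p k * g) * p k + (p k * g * p k * g) * p k := by
      rw [star_sub, star_mul, star_mul, hs, hgs]
      calc (p k - p k * (g * p k)) * (p k - p k * g * p k)
          = p k * p k - (p k * p k) * g * p k - p k * g * (p k * p k)
            + p k * g * (p k * p k) * g * p k := by noncomm_ring
        _ = _ := by rw [hp]
    have e2 : τ ((p k * g * p k * g) * p k) = D k k := by
      rw [hτ.comm]
      show τ (p k * (p k * g * p k * g)) = τ (p k * g * p k * g)
      congr 1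
      calc p k * (p k * g * p k * g) = (p k * p k) * g * p k * g := by noncomm_ring
        _ = _ := by rw [hp]
    have e3 : τ ((p k * g) * p k) = τ (p k * g) := by
      rw [hτ.comm]
      congr 1
      rw [← mul_assoc, hp]
    rw [e1, map_add, map_sub, map_sub, e2, e3] at e
    simp only [Complex.add_re, Complex.sub_re] at e
    linarith
  have s1 : ∑ k ∈ range n, τ (p k * g) = 1 := by
    rw [← map_sum, ← sum_mul, ← hh, h1, hτ.one]
  have s2 : ∑ k ∈ range n, ∑ j ∈ range n, D j k = 1 := by
    have : ∀ k ∈ range n, ∑ j ∈ range n, D j k = τ (p k * g) := by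
      intro k _
      show ∑ j ∈ range n, τ (p k * g * p j * g) = _
      rw [← map_sum, ← sum_mul, ← mul_sum, ← hh]
      congr 1
      calc p k * g * h * g = p k * (g * h) * g := by noncomm_ring
        _ = _ := by rw [h2, mul_one]
    rw [sum_congr rfl this, s1]
  have t1 : ∑ k ∈ range n, (τ (p k * g)).re = 1 := by
    rw [← Complex.re_sum, s1, Complex.one_re]
  have t2 : ∑ k ∈ range n, ∑ j ∈ range n, (D j k).re = 1 := by
    have := congrArg Complex.re s2
    rw [Complex.re_sum, Complex.one_re] at this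
    rw [← this]
    exact sum_congr rfl fun k _ => by rw [Complex.re_sum]
  have t3 : ∑ k ∈ range n, (D k k).re ≤ ∑ k ∈ range n, ∑ j ∈ range n, (D j k).re :=
    sum_le_sum fun k hk => single_le_sum (f := fun j => (D j k).re) (fun j _ => hD j k) hk
  have t4 : 0 ≤ ∑ k ∈ range n, ((τ (p k)).re - 2 * (τ (p k * g)).re + (D k k).re) :=
    sum_nonneg fun k _ => hK k
  rw [sum_add_distrib, sum_sub_distrib, ← mul_sum, t1] at t4
  linarith

/-- approximate kernel vectors of a non-invertible self-adjoint element -/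
theorem exists_b (h : A) (hh : IsSelfAdjoint h) (hu : ¬ IsUnit h) (ε : ℝ) (hε : 0 < ε) :
    ∃ b : A, star b = b ∧ ‖b‖ = 1 ∧ ‖h * b‖ ≤ ε := by
  let f : ℝ → ℝ := fun t => max 0 (1 - |t| / ε)
  have hf : Continuous f := by fun_prop
  have h0 : (0 : ℝ) ∈ spectrum ℝ h := spectrum.zero_mem_iff ℝ |>.2 hu
  have hf01 : ∀ t, ‖f t‖ ≤ 1 := by
    intro t
    rw [Real.norm_eq_abs, abs_of_nonneg (le_max_left _ _)]
    exact max_le zero_le_one (by have : 0 ≤ |t| / ε := by positivity
                                 linarith)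
  refine ⟨cfc f h, (cfc_predicate f h : IsSelfAdjoint _), le_antisymm ?_ ?_, ?_⟩
  · exact norm_cfc_le zero_le_one fun t _ => hf01 t
  · have := norm_apply_le_norm_cfc f h h0 hf.continuousOn hh
    have e : f 0 = 1 := by simp [f]
    rwa [e, norm_one] at this
  · have e1 : h * cfc f h = cfc (fun t => t * f t) h := by
      rw [cfc_mul (fun t => t) f h (by fun_prop) hf.continuousOn, cfc_id' ℝ h]
    rw [e1]
    refine norm_cfc_le hε.le fun t _ => ?_
    show ‖t * f t‖ ≤ ε
    rw [norm_mul, Real.norm_eq_abs, Real.norm_eq_abs,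
      abs_of_nonneg (show 0 ≤ f t from le_max_left _ _)]
    show |t| * max 0 (1 - |t| / ε) ≤ ε
    rcases le_total 0 (1 - |t| / ε) with hc | hc
    · rw [max_eq_right hc]
      have h3 : |t| / ε ≤ 1 := by linarith
      rw [div_le_one hε] at h3
      have h4 : 1 - |t| / ε ≤ 1 := by have : 0 ≤ |t| / ε := by positivity
                                      linarith
      nlinarith [abs_nonneg t]
    · rw [max_eq_left hc, mul_zero]
      exact hε.le

open scoped ComplexOrder in
theorem norm_le_of_sum (p : ℕ → A) (hp : ∀ k, p k * p k = p k)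
    (hs : ∀ k, star (p k) = p k) (n k : ℕ) (hk : k < n) (b : A) (hb : star b = b) :
    ‖p k * b‖ ^ 2 ≤ ‖b‖ * ‖(∑ k ∈ range n, p k) * b‖ := by
  let _ := CStarAlgebra.spectralOrder A
  let _ := CStarAlgebra.spectralOrderedRing A
  have e1 : ∀ j, star (p j * b) * (p j * b) = b * p j * b := by
    intro j
    rw [star_mul, hs, hb]
    calc b * p j * (p j * b) = b * (p j * p j) * b := by noncomm_ring
      _ = _ := by rw [hp]
  have h0 : ∀ j, 0 ≤ b * p j * b := fun j => by
    rw [← e1]; exact star_mul_self_nonneg _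
  have h1 : b * p k * b ≤ ∑ j ∈ range n, b * p j * b :=
    single_le_sum (f := fun j => b * p j * b) (fun j _ => h0 j) (mem_range.2 hk)
  have h2 : ‖b * p k * b‖ ≤ ‖∑ j ∈ range n, b * p j * b‖ :=
    CStarAlgebra.norm_le_norm_of_nonneg_of_le (h0 k) h1
  have h3 : ∑ j ∈ range n, b * p j * b = b * ((∑ k ∈ range n, p k) * b) := by
    rw [← sum_mul, ← mul_sum, mul_assoc]
  rw [sq, ← CStarRing.norm_star_mul_self, e1]
  rw [h3] at h2
  exact h2.trans (norm_mul_le _ _)

/-- a joint approximate kernel of projections with small total trace -/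
theorem exists_seq {τ : A →ₗ[ℂ] ℂ} (hτ : FTS τ) (p : ℕ → A) (hp : ∀ k, p k * p k = p k)
    (hs : ∀ k, star (p k) = p k) (hn : ∀ n, ∑ k ∈ range n, (τ (p k)).re < 1) :
    ∃ b : ℕ → A, (∀ m, ‖b m‖ = 1) ∧ ∀ k, Tendsto (fun m => p k * b m) atTop (𝓝 0) := by
  have h : ∀ m : ℕ, ∃ b : A, ‖b‖ = 1 ∧ ∀ k < m, ‖p k * b‖ ≤ 1 / ((m : ℝ) + 1) := by
    intro m
    have hsa : IsSelfAdjoint (∑ k ∈ range m, p k) := by
      show star _ = _
      rw [star_sum]; exact sum_congr rfl fun k _ => hs k
    obtain ⟨b, hb, hb1, hb2⟩ := exists_b _ hsa (not_unit hτ p hp hs m (hn m))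
      ((1 / ((m : ℝ) + 1)) ^ 2) (by positivity)
    refine ⟨b, hb1, fun k hk => ?_⟩
    have := norm_le_of_sum p hp hs m k hk b hb
    rw [hb1, one_mul] at this
    have h5 : 0 ≤ 1 / ((m : ℝ) + 1) := by positivity
    exact (abs_le_of_sq_le_sq' (this.trans hb2) h5).2
  choose b hb1 hb2 using h
  refine ⟨b, hb1, fun k => ?_⟩
  refine squeeze_zero_norm' ?_ tendsto_one_div_add_atTop_nhds_zero_nat
  filter_upwards [eventually_gt_atTop k] with m hm using hb2 m k hm

/-- the relation `a b_m - α b_m → 0` -/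
def R (b : ℕ → A) (a : A) (α : ℂ) : Prop := Tendsto (fun m => a * b m - α • b m) atTop (𝓝 0)

theorem R_add {b : ℕ → A} {a a' : A} {α α' : ℂ} (h : R b a α) (h' : R b a' α') :
    R b (a + a') (α + α') := by
  have := Tendsto.add h h'
  rw [add_zero] at this
  refine this.congr fun m => ?_
  rw [add_mul, add_smul]; abel

theorem R_smul {b : ℕ → A} {a : A} {α : ℂ} (c : ℂ) (h : R b a α) : R b (c • a) (c * α) := by
  have := Tendsto.const_smul h c
  rw [smul_zero] at this
  refine this.congr fun m => ?_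
  rw [smul_sub, smul_mul_assoc, smul_smul]

theorem R_one (b : ℕ → A) : R b 1 1 := by
  show Tendsto _ _ _
  simp

theorem R_mul {b : ℕ → A} {a a' : A} {α α' : ℂ} (h : R b a α) (h' : R b a' α') :
    R b (a * a') (α * α') := by
  have h1 : Tendsto (fun m => a * (a' * b m - α' • b m)) atTop (𝓝 0) := by
    have := Tendsto.const_mul a h'
    rwa [mul_zero] at this
  have h2 : Tendsto (fun m => α' • (a * b m - α • b m)) atTop (𝓝 0) := by
    have := Tendsto.const_smul h α'
    rwa [smul_zero] at this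
  have := Tendsto.add h1 h2
  rw [add_zero] at this
  refine this.congr fun m => ?_
  rw [mul_sub, smul_sub, smul_smul, mul_comm α' α, mul_smul_comm, mul_assoc]
  abel

theorem R_bound {b : ℕ → A} (hb : ∀ m, ‖b m‖ = 1) {a : A} {α : ℂ} (h : R b a α) : ‖α‖ ≤ ‖a‖ := by
  have h1 : Tendsto (fun m => ‖a‖ + ‖a * b m - α • b m‖) atTop (𝓝 (‖a‖ + 0)) :=
    Tendsto.add tendsto_const_nhds (by simpa using h.norm)
  rw [add_zero] at h1
  refine ge_of_tendsto' h1 fun m => ?_
  calc ‖α‖ = ‖α • b m‖ := by rw [norm_smul, hb, mul_one]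
    _ = ‖a * b m - (a * b m - α • b m)‖ := by congr 1; abel
    _ ≤ ‖a * b m‖ + ‖a * b m - α • b m‖ := norm_sub_le _ _
    _ ≤ ‖a‖ + ‖a * b m - α • b m‖ := by
      gcongr
      refine (norm_mul_le _ _).trans ?_
      rw [hb, mul_one]

theorem R_sub {b : ℕ → A} {a a' : A} {α α' : ℂ} (h : R b a α) (h' : R b a' α') :
    R b (a - a') (α - α') := by
  have := R_add h (R_smul (-1) h')
  rwa [neg_one_smul, neg_one_mul, ← sub_eq_add_neg, ← sub_eq_add_neg] at this

theorem R_unique {b : ℕ → A} (hb : ∀ m, ‖b m‖ = 1) {a : A} {α α' : ℂ} (h : R b a α)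
    (h' : R b a α') : α = α' := by
  have := R_bound hb (R_sub h h')
  rw [sub_self, norm_zero] at this
  exact sub_eq_zero.1 (norm_le_zero_iff.1 this)

theorem R_closed {b : ℕ → A} (hb : ∀ m, ‖b m‖ = 1) : IsClosed {a : A | ∃ α, R b a α} := by
  refine isClosed_of_closure_subset fun a ha => ?_
  obtain ⟨x, hx, hxa⟩ := mem_closure_iff_seq_limit.1 ha
  choose α hα using hx
  have hc : CauchySeq α := by
    have h1 := hxa.cauchySeq
    rw [Metric.cauchySeq_iff] at h1 ⊢
    intro ε hε
    obtain ⟨N, hN⟩ := h1 ε hε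
    refine ⟨N, fun m hm n hn => lt_of_le_of_lt ?_ (hN m hm n hn)⟩
    rw [dist_eq_norm, dist_eq_norm]
    exact R_bound hb (R_sub (hα m) (hα n))
  obtain ⟨β, hβ⟩ := cauchySeq_tendsto_of_complete hc
  refine ⟨β, ?_⟩
  show Tendsto _ _ _
  rw [Metric.tendsto_atTop]
  intro ε hε
  obtain ⟨N1, hN1⟩ := Metric.tendsto_atTop.1 hxa (ε / 3) (by positivity)
  obtain ⟨N2, hN2⟩ := Metric.tendsto_atTop.1 hβ (ε / 3) (by positivity)
  obtain ⟨i, hi1, hi2⟩ : ∃ i, N1 ≤ i ∧ N2 ≤ i := ⟨max N1 N2, le_max_left _ _, le_max_right _ _⟩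
  have h1 := hN1 i hi1
  have h2 := hN2 i hi2
  obtain ⟨N3, hN3⟩ := Metric.tendsto_atTop.1 (hα i) (ε / 3) (by positivity)
  refine ⟨N3, fun m hm => ?_⟩
  have h3 := hN3 m hm
  rw [dist_zero_right] at h3 ⊢
  rw [dist_eq_norm] at h1 h2
  calc ‖a * b m - β • b m‖
      = ‖(x i * b m - α i • b m) - (x i - a) * b m + (α i - β) • b m‖ := by
        congr 1
        rw [sub_mul, sub_smul]; abel
    _ ≤ ‖x i * b m - α i • b m‖ + ‖(x i - a) * b m‖ + ‖(α i - β) • b m‖ := by
        refine (norm_add_le _ _).trans ?_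
        gcongr
        exact norm_sub_le _ _
    _ ≤ ‖x i * b m - α i • b m‖ + ‖x i - a‖ + ‖α i - β‖ := by
        gcongr
        · refine (norm_mul_le _ _).trans ?_
          rw [hb, mul_one]
        · rw [norm_smul, hb, mul_one]
    _ < ε := by linarith

/-- the subalgebra of all `a` with `a b_m - α b_m → 0` for some `α` -/
def RS (b : ℕ → A) : Subalgebra ℂ A where
  carrier := {a | ∃ α, R b a α}
  mul_mem' := by
    rintro x y ⟨α, hα⟩ ⟨β, hβ⟩
    exact ⟨_, R_mul hα hβ⟩
  add_mem' := by
    rintro x y ⟨α, hα⟩ ⟨β, hβ⟩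
    exact ⟨_, R_add hα hβ⟩
  algebraMap_mem' := fun c => ⟨c * 1, by
    rw [Algebra.algebraMap_eq_smul_one]
    exact R_smul c (R_one b)⟩

theorem exists_char {b : ℕ → A} (hb : ∀ m, ‖b m‖ = 1) (s : Set A)
    (hs : ∀ a ∈ s, ∃ α, R b a α) (hs' : ∀ a ∈ s, star a ∈ s)
    (hgen : (StarAlgebra.adjoin ℂ s).topologicalClosure = ⊤) : Nonempty (A →ₐ[ℂ] ℂ) := by
  have h1 : ∀ a : A, ∃ α, R b a α := by
    intro a
    have ha : a ∈ (StarAlgebra.adjoin ℂ s).topologicalClosure := by rw [hgen]; trivial
    have ha' : a ∈ closure ((StarAlgebra.adjoin ℂ s : StarSubalgebra ℂ A) : Set A) := by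
      rw [← StarSubalgebra.topologicalClosure_coe]
      exact ha
    have h2 : ((StarAlgebra.adjoin ℂ s : StarSubalgebra ℂ A) : Set A) ⊆
        {a : A | ∃ α, R b a α} := by
      have h3 : (StarAlgebra.adjoin ℂ s).toSubalgebra ≤ RS b := by
        rw [StarAlgebra.adjoin_toSubalgebra]
        refine Algebra.adjoin_le ?_
        rintro x (hx | hx)
        · exact hs x hx
        · have := hs' _ (Set.mem_star.1 hx)
          rw [star_star] at this
          exact hs x this
      intro x hx
      exact h3 hx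
    exact closure_minimal h2 (R_closed hb) ha'
  choose χ hχ using h1
  exact ⟨{ toFun := χ
           map_one' := R_unique hb (hχ 1) (R_one b)
           map_mul' := fun x y => R_unique hb (hχ _) (R_mul (hχ x) (hχ y))
           map_zero' := by
             refine R_unique hb (hχ 0) ?_
             have := R_smul (b := b) 0 (R_one b)
             rwa [zero_smul, zero_mul] at this
           map_add' := fun x y => R_unique hb (hχ _) (R_add (hχ x) (hχ y))
           commutes' := fun c => by
             refine R_unique hb (hχ _) ?_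
             have := R_smul (b := b) c (R_one b)
             rw [mul_one] at this
             rwa [Algebra.algebraMap_eq_smul_one] }⟩

end one

end Pool.Agent.R293.FC
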