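import Pool.Agent.R293.FC.Char
import Pool.Agent.H265R2.FZ_FR2
import Pool.Agent.H154R5.FP_T1
import Pool.Agent.H311R.FP_T2

/-!
An algebra generated by `C([0,1])` and a free nontrivial projection has no character.
-/

set_option autoImplicit false
set_option linter.unusedSectionVars false

open scoped ComplexConjugate Topology
open Filter Finset

noncomputable section

namespace Pool.Agent.R293.FC

open Pool.Agent.H923R2.FP Pool.Agent.H923R2.FZ

theorem fr2 : S_FR2 := T_FR2.t_FR2 T_T1.t_T1 T_T2.t_T2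

/-- the function `x` on `[0,1]` -/
def idc : C(unitInterval, ℂ) := ⟨fun x => ((x : ℝ) : ℂ), by fun_prop⟩

/-- the function `(1 - (x - x₀)²)ⁿ` on `[0,1]` -/
def bmp (x0 : ℝ) (n : ℕ) : C(unitInterval, ℂ) := (1 - (idc - algebraMap ℂ _ (x0 : ℂ)) ^ 2) ^ n

theorem bmp_apply (x0 : ℝ) (n : ℕ) (x : unitInterval) :
    bmp x0 n x = (((1 - ((x : ℝ) - x0) ^ 2) ^ n : ℝ) : ℂ) := by
  simp [bmp, idc]

theorem bmp_mem (x0 : ℝ) (hx0 : x0 ∈ Set.Icc (0 : ℝ) 1) (n : ℕ) (x : unitInterval) :
    (1 - ((x : ℝ) - x0) ^ 2) ^ n ∈ Set.Icc (0 : ℝ) 1 := by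
  have h1 := x.2.1
  have h2 := x.2.2
  have h3 := hx0.1
  have h4 := hx0.2
  have h5 : ((x : ℝ) - x0) ^ 2 ≤ 1 := by
    rw [sq_le_one_iff_abs_le_one, abs_le]
    constructor <;> linarith
  have h6 : 0 ≤ 1 - ((x : ℝ) - x0) ^ 2 := by linarith
  exact ⟨pow_nonneg h6 n, pow_le_one₀ h6 (by nlinarith [sq_nonneg ((x : ℝ) - x0)])⟩

theorem bmp_int (x0 : ℝ) (hx0 : x0 ∈ Set.Icc (0 : ℝ) 1) :
    Tendsto (fun n => (leb (bmp x0 n * bmp x0 n)).re) atTop (𝓝 0) := by
  have h0 : ∀ n, leb (bmp x0 n * bmp x0 n) =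
      ((∫ x : unitInterval, ((1 - ((x : ℝ) - x0) ^ 2) ^ n) ^ 2 : ℝ) : ℂ) := by
    intro n
    rw [leb, ← integral_complex_ofReal]
    congr 1
    funext x
    rw [ContinuousMap.mul_apply, bmp_apply]
    push_cast
    ring
  have h1 : Tendsto (fun n : ℕ => ∫ x : unitInterval, ((1 - ((x : ℝ) - x0) ^ 2) ^ n) ^ 2) atTop
      (𝓝 (∫ _ : unitInterval, (0 : ℝ))) := by
    refine MeasureTheory.tendsto_integral_of_dominated_convergence (fun _ => 1) ?_ ?_ ?_ ?_
    · intro n
      exact Continuous.aestronglyMeasurable (by fun_prop)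
    · exact MeasureTheory.integrable_const _
    · intro n
      refine Eventually.of_forall fun x => ?_
      have := bmp_mem x0 hx0 n x
      rw [Real.norm_eq_abs, abs_of_nonneg (sq_nonneg _)]
      exact pow_le_one₀ this.1 this.2
    · have hne : ∀ᵐ x : unitInterval, x ≠ ⟨x0, hx0⟩ := by
        rw [MeasureTheory.ae_iff]
        have : {a : unitInterval | ¬ a ≠ ⟨x0, hx0⟩} = {⟨x0, hx0⟩} := by
          ext a; simp
        rw [this]
        exact MeasureTheory.measure_singleton _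
      filter_upwards [hne] with x hx
      have hx' : (x : ℝ) - x0 ≠ 0 := fun h => hx (Subtype.ext (by
        show (x : ℝ) = x0
        linarith))
      have h2 := bmp_mem x0 hx0 1 x
      rw [pow_one] at h2
      have h3 : 1 - ((x : ℝ) - x0) ^ 2 < 1 := by
        have : 0 < ((x : ℝ) - x0) ^ 2 := by positivity
        linarith
      have h4 := tendsto_pow_atTop_nhds_zero_of_lt_one h2.1 h3
      have h5 := h4.pow 2
      rwa [zero_pow two_ne_zero] at h5
  simp only [MeasureTheory.integral_zero] at h1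
  refine h1.congr fun n => ?_
  rw [h0, Complex.ofReal_re]

section two

variable {B : Type} [CStarAlgebra B]

theorem pc_of_real (c : C(unitInterval, ℂ) →⋆ₐ[ℂ] B) (f : C(unitInterval, ℂ)) (F : unitInterval → ℝ)
    (h : ∀ x, f x = (F x : ℂ)) (hF : ∀ x, F x ∈ Set.Icc (0 : ℝ) 1) : PC (c f) := by
  constructor
  · show star (c f) = c f
    rw [← map_star]
    congr 1
    ext x
    rw [ContinuousMap.star_apply, h, Complex.star_def, Complex.conj_ofReal]
  · intro t ht
    by_contra hcon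
    apply ht
    have h1 : ∀ x, (t : ℂ) - f x ≠ 0 := by
      intro x hx
      rw [h, ← Complex.ofReal_sub, Complex.ofReal_eq_zero] at hx
      apply hcon
      have : t = F x := by linarith
      rw [this]
      exact hF x
    let v : C(unitInterval, ℂ) := ⟨fun x => ((t : ℂ) - f x)⁻¹, by
      refine Continuous.inv₀ (by fun_prop) h1⟩
    have h2 : (algebraMap ℂ _ (t : ℂ) - f) * v = 1 := by
      ext x
      show ((t : ℂ) - f x) * ((t : ℂ) - f x)⁻¹ = 1
      exact mul_inv_cancel₀ (h1 x)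
    have h3 : algebraMap ℝ B t - c f = c (algebraMap ℂ _ (t : ℂ) - f) := by
      rw [map_sub, AlgHomClass.commutes]
      rfl
    show IsUnit (algebraMap ℝ B t - c f)
    rw [h3]
    exact (IsUnit.of_mul_eq_one _ h2).map c

theorem pc_of_proj (k : B) (h1 : k * k = k) (h2 : star k = k) : PC k := by
  refine ⟨h2, (IsIdempotentElem.spectrum_subset ℝ h1).trans ?_⟩
  rintro x (rfl | hx)
  · exact ⟨le_rfl, zero_le_one⟩
  · rw [Set.mem_singleton_iff] at hx
    subst hx
    exact ⟨zero_le_one, le_rfl⟩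

/-- no characters -/
theorem no_char {θ : B →ₗ[ℂ] ℂ} (hθ : FTS θ) (c : C(unitInterval, ℂ) →⋆ₐ[ℂ] B)
    (hc : ∀ f, θ (c f) = leb f) (T : StarSubalgebra ℂ B)
    (hfree : FreeFam θ (fun b : Bool => if b then c.range else T)) (q : B) (hq : q ∈ T)
    (hq1 : q * q = q) (hq2 : star q = q) (h0 : 0 < (θ q).re) (h1 : (θ q).re < 1) :
    IsEmpty (B →ₐ[ℂ] ℂ) := by
  refine ⟨fun χ => ?_⟩
  have : Nontrivial B := by
    refine nontrivial_of_ne q 0 ?_
    rintro rfl
    rw [map_zero, Complex.zero_re] at h0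
    exact lt_irrefl _ h0
  -- the point
  obtain ⟨x0, hx0, hχ⟩ : ∃ x0 : ℝ, x0 ∈ Set.Icc (0 : ℝ) 1 ∧ χ (c idc) = x0 := by
    by_contra hcon
    push Not at hcon
    have h2 : ∀ x : unitInterval, idc x - χ (c idc) ≠ 0 := by
      intro x hx
      exact hcon x x.2 (sub_eq_zero.1 hx).symm
    let v : C(unitInterval, ℂ) := ⟨fun x => (idc x - χ (c idc))⁻¹, by
      refine Continuous.inv₀ (by fun_prop) h2⟩
    have h3 : (idc - algebraMap ℂ _ (χ (c idc))) * v = 1 := by
      ext x
      show (idc x - χ (c idc)) * (idc x - χ (c idc))⁻¹ = 1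
      exact mul_inv_cancel₀ (h2 x)
    have h4 := congrArg (fun z => χ (c z)) h3
    simp only [map_mul, map_sub, map_one] at h4
    rw [AlgHomClass.commutes, AlgHomClass.commutes] at h4
    simp at h4
  have hg : ∀ n, χ (c (bmp x0 n)) = 1 := by
    intro n
    rw [bmp, map_pow, map_sub, map_pow, map_sub, map_one, map_pow, map_sub, map_pow, map_sub,
      map_one, AlgHomClass.commutes, AlgHomClass.commutes, hχ]
    simp
  -- the projection
  obtain ⟨k, hkT, hk1, hk2, hk3, hk4⟩ : ∃ k ∈ T, k * k = k ∧ star k = k ∧ χ k = 1 ∧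
      (θ k).re < 1 := by
    have h5 : χ q * χ q = χ q := by rw [← map_mul, hq1]
    have h5b : χ q = 0 ∨ χ q = 1 := by
      have h6 : χ q * (χ q - 1) = 0 := by rw [mul_sub, h5, mul_one, sub_self]
      rcases mul_eq_zero.1 h6 with h | h
      · exact Or.inl h
      · exact Or.inr (sub_eq_zero.1 h)
    rcases h5b with h6 | h6
    · refine ⟨1 - q, T.sub_mem T.one_mem hq, ?_, ?_, ?_, ?_⟩
      · calc (1 - q) * (1 - q) = 1 - q - q + q * q := by noncomm_ring
          _ = _ := by rw [hq1]; abel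
      · rw [star_sub, star_one, hq2]
      · rw [map_sub, map_one, h6, sub_zero]
      · rw [map_sub, hθ.one, Complex.sub_re, Complex.one_re]
        linarith
    · exact ⟨q, hq, hq1, hq2, h6, h1⟩
  -- the estimate
  obtain ⟨n, hn⟩ := ((bmp_int x0 hx0).eventually_lt_const (sub_pos.2 hk4)).exists
  have h7 := fr2 B θ hθ c.range T hfree (c (bmp x0 n)) ⟨_, rfl⟩ k hkT
    (pc_of_real c _ _ (bmp_apply x0 n) (bmp_mem x0 hx0 n)) (pc_of_proj k hk1 hk2)
    (by rw [← map_mul, hc, hk1]; linarith)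
  rw [← map_mul, hc, hk1] at h7
  have h8 : (1 : ℝ) ≤ ‖c (bmp x0 n) * k‖ := by
    have := AlgHom.norm_apply_le_self χ (c (bmp x0 n) * k)
    rw [map_mul, hg, hk3, mul_one, norm_one] at this
    exact this
  have h9 : 0 < (1 - (leb (bmp x0 n * bmp x0 n)).re - (θ k).re) ^ 2 := by
    have : 0 < 1 - (leb (bmp x0 n * bmp x0 n)).re - (θ k).re := by linarith
    positivity
  linarith

end two

end Pool.Agent.R293.FC
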